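import Pool.Agent.N172.CW.Fw1

/-!
# Potentially automorphic representations and cuspidal representations with base changes
-/

set_option autoImplicit false

namespace Pool.Agent.Results.MP_adf543_nt.PotentiallyAutomorphicCriterion

open NumberField Complex Filter Topology IsDedekindDomain
open Pool.Agent.N172.CW

/-- Let `L_t` be finitely many finite extensions of the number field `K`, let `σ_{t,l}`, for each `t`, be
finitely many pairwise inequivalent cuspidal representations over `L_t`, and let `E` be a finite set of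
primes of `K`. Let `P` be a family of parameters over `K` which is potentially automorphic: outside `E`
it is the sum `∑ c_{t,l} Ind σ_{t,l}` of representations induced from the `L_t`, and its restriction to
`L_t` is `∑_l m_{t,l} σ_{t,l}`. Put `M = ∑ c_{t,l} m_{t,l}` (for the parameters `P` of a Galois
representation `R` which is irreducible, `M = 1`). Let `π_i` be pairwise inequivalent cuspidal
representations over `K` whose base changes to the `L_t` are `∑_l n_{t,i,l} σ_{t,l}` outside `E`, and put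
`N_i = ∑ c_{t,l} n_{t,i,l}`. Then
(1) `L(s, P × P~)` has order `-M` and `L(s, π_i × P~)` has order `-N_i` at `s = 1`, on the logarithmic
scale;
(2) `∑ N_i ^ 2 ≤ M`, and in the case of equality `tr P = ∑ N_i tr π_i + o(1)` outside a set of primes of
density zero;
(3) if `M = 1` and `N_i` is an integer `≠ 0`, then `N_i = ±1` and `tr P = ± tr π_i + o(1)` outside a set
of primes of density zero: `P` is automorphic. -/
theorem result (K : Type) [Field K] [NumberField K] (s : ℕ) (L : Fin s → Type)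
    [∀ t, Field (L t)] [∀ t, NumberField (L t)] [∀ t, Algebra K (L t)]
    (q : Fin s → ℕ) (σ : ∀ t, Fin (q t) → Params (L t))
    (hσ : ∀ t l, (σ t l).IsCuspidal)
    (hσ1 : ∀ t l w j, ‖(σ t l).α w j‖ ^ 2 < Ideal.absNorm w.asIdeal)
    (hσ2 : ∀ t k l, k ≠ l → HasOrd (RS (σ t k) (σ t l)) 1 0)
    (E : Set (HeightOneSpectrum (𝓞 K))) (hE : E.Finite)
    (P : Params K) (hP : P.IsConv) (c m : ∀ t, Fin (q t) → ℝ)
    (hP1 : IndSum E P q σ c) (hP2 : ∀ t, BC E P (σ t) (m t))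
    (p : ℕ) (π : Fin p → Params K) (hπ : ∀ i, (π i).IsCuspidal)
    (hπ1 : ∀ i v j, ‖(π i).α v j‖ ^ 2 < Ideal.absNorm v.asIdeal)
    (hπ2 : ∀ i j, i ≠ j → HasOrd (RS (π i) (π j)) 1 0)
    (n : ∀ t, Fin p → Fin (q t) → ℝ) (hn : ∀ t i, BC E (π i) (σ t) (n t i))
    (M : ℝ) (hM : M = ∑ t, ∑ l, c t l * m t l)
    (N : Fin p → ℝ) (hN : ∀ i, N i = ∑ t, ∑ l, c t l * n t i l) :
    (Tendsto (fun ε : ℝ => Real.log ‖RS P P (1 + (ε : ℂ))‖ / Real.log (1 / ε)) (𝓝[>] 0) (𝓝 M) ∧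
      ∀ i, Tendsto (fun ε : ℝ => Real.log ‖RS (π i) P (1 + (ε : ℂ))‖ / Real.log (1 / ε))
        (𝓝[>] 0) (𝓝 (N i))) ∧
    (∑ i, N i ^ 2 ≤ M ∧ (∑ i, N i ^ 2 = M → ∀ η : ℝ, 0 < η →
      DensZero {v | η ≤ ‖∑ i, (N i : ℂ) * ∑ j, (π i).α v j - ∑ j, P.α v j‖})) ∧
    (M = 1 → ∀ i (z : ℤ), N i = z → z ≠ 0 → (z = 1 ∨ z = -1) ∧ ∀ η : ℝ, 0 < η →
      DensZero {v | η ≤ ‖(z : ℂ) * ∑ j, (π i).α v j - ∑ j, P.α v j‖}) := by
  obtain ⟨H1, H2, H3, H4⟩ := pot_final hE hP hP1 hσ hσ1 hσ2 hP2 π hπ hπ1 hπ2 hn hN hM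
  refine ⟨⟨H1, H2⟩, ⟨H3, H4⟩, fun h1 i z hz hz0 => ?_⟩
  exact pot_one hE hP hP1 hσ hσ1 hσ2 hP2 (π i) (hπ i) (hπ1 i) (fun t => hn t i)
    (hz.symm.trans (hN i)) (hM.symm.trans h1) hz0

end Pool.Agent.Results.MP_adf543_nt.PotentiallyAutomorphicCriterion
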